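import Pool.Agent.H65.AP.Targets
import Pool.Agent.H41.IC.UNI

/-! module PBS of MP_0ee698_an (board crr): pull-backs of sign sheaves are sign sheaves -/

open MeasureTheory Set Filter Topology Metric

namespace Pool.Agent.H38.AP

open Pool.Agent.H94.IC Pool.Agent.H94.AC Pool.Agent.H92.CK Pool.Agent.H65.AP

theorem pf_PBS : T_PBS := by
  classical
  intro V _ O Y P f ρ O' hO h hO' hf hfO hρ
  refine ⟨?_, ?_, ?_, ?_, ?_, ?_⟩
  · intro W _ _ hne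
    simpa using hne
  · intro W s hW hWO hx v hv
    obtain ⟨W', h1, h2, h3, h4⟩ := hx v hv
    exact h4 v h2
  · intro W s s' hW hWO hs he v hv
    obtain ⟨T, t, W', h1, h2, h3, h4, h5, h6, h7⟩ := hs v hv
    refine ⟨T, t, W' ∩ W, h1, h2, h3, h4.inter hW, ⟨h5, hv⟩, fun w hw => h6 w hw.1, fun w hw => ?_⟩
    have e : s' w = s w := (he w ⟨hw.2, fun h => h⟩).symm
    rw [e]
    exact h7 w hw.1
  · intro W s hW hWO hs v hv
    obtain ⟨T, t, W', h1, h2, h3, h4, h5, h6, h7⟩ := hs v hv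
    refine ⟨T, fun z => - t z, W', h1, h2, h.neg T t h1 h2 h3, h4, h5, h6, fun w hw => ?_⟩
    obtain ⟨N, hN1, hN2, hN3⟩ := h7 w hw
    refine ⟨N, hN1, hN2, fun z hz => ?_⟩
    have := hN3 z hz
    simp only [neg_mul] at this ⊢
    rw [this]
  · intro W s s' hW hWO hs hs' x hx
    obtain ⟨T1, t1, W1, a1, a2, a3, a4, a5, a6, a7⟩ := hs x hx
    obtain ⟨T2, t2, W2, b1, b2, b3, b4, b5, b6, b7⟩ := hs' x hx
    have hr1 := H41.IC.restr h a1 a2 (a1.inter b1) inter_subset_left a3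
    have hr2 := H41.IC.restr h b1 b2 (a1.inter b1) inter_subset_right b3
    obtain ⟨T3, c1, c2, c3, c4⟩ := h.uniq (T1 ∩ T2) t1 t2 (a1.inter b1) (inter_subset_left.trans a2)
      hr1 hr2 (f x) ⟨a6 x a5, b6 x b5⟩
    have hpre : IsOpen (O' ∩ f ⁻¹' T3) := hf.isOpen_inter_preimage hO' c1
    refine ⟨W ∩ (W1 ∩ (W2 ∩ (O' ∩ f ⁻¹' T3))), hW.inter (a4.inter (b4.inter hpre)),
      ⟨hx, a5, b5, hWO hx, c2⟩, inter_subset_left, ?_⟩
    have key : ∀ w ∈ W ∩ (W1 ∩ (W2 ∩ (O' ∩ f ⁻¹' T3))), ∃ z : E, z ∈ T3 \ Y ∧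
        s w * ρ (f w) z = t1 z ∧ s' w * ρ (f w) z = t2 z := by
      rintro w ⟨hw0, hw1, hw2, hw3, hw4⟩
      obtain ⟨N1, d1, d2, d3⟩ := a7 w hw1
      obtain ⟨N2, e1, e2, e3⟩ := b7 w hw2
      obtain ⟨z, hz, hzY⟩ := h.dense (N1 ∩ (N2 ∩ T3)) (d1.inter (e1.inter c1))
        (fun y hy => a2 (c3 hy.2.2).1) ⟨f w, d2, e2, hw4⟩
      exact ⟨z, ⟨hz.2.2, hzY⟩, d3 z ⟨hz.1, hzY⟩, e3 z ⟨hz.2.1, hzY⟩⟩
    rcases c4 with c4 | c4
    · left
      intro w hw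
      obtain ⟨z, hz, e1, e2⟩ := key w hw.1
      have := c4 z hz
      rw [← e1, ← e2] at this
      exact mul_right_cancel this
    · right
      intro w hw
      obtain ⟨z, hz, e1, e2⟩ := key w hw.1
      have := c4 z hz
      rw [← e1, ← e2, ← neg_mul] at this
      exact mul_right_cancel this
  · intro v hv
    obtain ⟨T, g1, g2, g3, g4⟩ := hρ (f v) (hfO v hv)
    refine ⟨O' ∩ f ⁻¹' T, fun w => if GE Y (ρ (f w)) (ρ (f v)) (f w) then 1 else -1,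
      hf.isOpen_inter_preimage hO' g1, ⟨hv, g2⟩, inter_subset_left, ?_⟩
    intro v' hv'
    refine ⟨T, ρ (f v), O' ∩ f ⁻¹' T, g1, g3, g4, hf.isOpen_inter_preimage hO' g1, hv',
      fun w hw => hw.2, fun w hw => ?_⟩
    by_cases hG : GE Y (ρ (f w)) (ρ (f v)) (f w)
    · simp only [if_pos hG, one_mul]
      exact hG
    · simp only [if_neg hG, neg_mul, one_mul]
      obtain ⟨T', k1, k2, k3, k4⟩ := hρ (f w) (hfO w hw.1)
      have hr1 := H41.IC.restr h k1 k3 (k1.inter g1) inter_subset_left k4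
      have hr2 := H41.IC.restr h g1 g3 (k1.inter g1) inter_subset_right g4
      obtain ⟨T3, c1, c2, c3, c4⟩ := h.uniq (T' ∩ T) (ρ (f w)) (ρ (f v)) (k1.inter g1)
        (inter_subset_left.trans k3) hr1 hr2 (f w) ⟨k2, hw.2⟩
      rcases c4 with c4 | c4
      · exact absurd ⟨T3, c1, c2, c4⟩ hG
      · refine ⟨T3, c1, c2, fun z hz => ?_⟩
        show - ρ (f w) z = ρ (f v) z
        rw [c4 z hz, neg_neg]

end Pool.Agent.H38.AP
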