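import Pool.Agent.H65.AP.Targets

/-! module RKT of MP_0ee698_an (board crr): rank three uniformly in the crack -/

open MeasureTheory Set Filter Topology Metric
open scoped ENNReal NNReal ContDiff RealInnerProductSpace

namespace Pool.Agent.H38.AP

open Pool.Agent.H94.IC Pool.Agent.H94.AC Pool.Agent.H92.CK Pool.Agent.H65.AP

/-- balls around points of an open set which are far from the boundary -/
lemma ball_sub_of_infDist {Ω : Set E} (hO : IsOpen Ω) {x : E} {r : ℝ} (hx : x ∈ Ω)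
    (hr : r ≤ infDist x (frontier Ω)) : ball x r ⊆ Ω := by
  by_cases hr0 : r ≤ 0
  · rw [ball_eq_empty.2 hr0]
    exact empty_subset _
  push Not at hr0
  have hcov : ball x r ⊆ Ω ∪ (closure Ω)ᶜ := by
    intro y hy
    by_contra hcon
    rw [mem_union, not_or, notMem_compl_iff] at hcon
    have hyf : y ∈ frontier Ω := by
      rw [hO.frontier_eq]
      exact ⟨hcon.2, hcon.1⟩
    have h1 := infDist_le_dist_of_mem (x := x) hyf
    rw [mem_ball, dist_comm] at hy
    linarith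
  have hd : Disjoint Ω (closure Ω)ᶜ :=
    disjoint_left.2 fun y hy hy' => hy' (subset_closure hy)
  rcases ((convex_ball x r).isPreconnected).subset_or_subset hO isClosed_closure.isOpen_compl hd hcov with h | h
  · exact h
  · exact absurd (subset_closure hx) (h (mem_ball_self hr0))

lemma memLp_of_smooth {Ω : Set E} {B : E → E} (hB : Continuous B) (hc : HasCompactSupport B) :
    MemLp B 2 (volume.restrict Ω) :=
  (hB.memLp_of_hasCompactSupport hc).restrict Ω

lemma intg_inner {Ω : Set E} {P B : E → E} (hP : MemLp P 2 (volume.restrict Ω))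
    (hB : MemLp B 2 (volume.restrict Ω)) : Integrable (fun y => ⟪P y, B y⟫) (volume.restrict Ω) := by
  have h := L2.integrable_inner (𝕜 := ℝ) (hP.toLp P) (hB.toLp B)
  refine h.congr ?_
  filter_upwards [hP.coeFn_toLp, hB.coeFn_toLp] with y h1 h2
  rw [h1, h2]

lemma hcs_smul {f : E → ℝ} {B : E → E} (hB : HasCompactSupport B) :
    HasCompactSupport (fun z => f z • B z) :=
  HasCompactSupport.smul_left (f := f) hB

lemma shift_int (f : E → ℝ) (x : E) (ρ : ℝ) :
    ∫ y in ball x ρ, f y = ∫ z in ball (0 : E) ρ, f (x + z) := by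
  have h := (measurePreserving_add_left (volume : Measure E) x).setIntegral_preimage_emb
    (measurableEmbedding_addLeft x) f (ball x ρ)
  rw [← h]
  congr 2
  ext z
  simp [mem_ball, dist_eq_norm]

lemma cont_par {g : E → E} (hg : Continuous g) (hc : HasCompactSupport g) (ρ : ℝ) :
    Continuous fun x : E => ∫ z in ball (0 : E) ρ, g (x + z) := by
  obtain ⟨M, hM⟩ := hc.exists_bound_of_continuous hg
  refine continuous_of_dominated (bound := fun _ => M) ?_ ?_ ?_ ?_
  · intro x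
    exact (hg.comp (continuous_const.add continuous_id)).aestronglyMeasurable
  · intro x
    exact Eventually.of_forall fun z => hM _
  · exact integrableOn_const (by exact measure_ball_lt_top.ne)
  · exact Eventually.of_forall fun z => hg.comp (continuous_id.add continuous_const)

lemma cont_two {g : E → E} (hg : Continuous g) (hc : HasCompactSupport g) (ρ : ℝ) (x v : E) :
    ∫ y in ball x ρ, ⟪v, g y⟫ = ⟪v, ∫ z in ball (0 : E) ρ, g (x + z)⟫ := by
  rw [shift_int (fun y => ⟪v, g y⟫) x ρ, ← integral_inner]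
  have h1 : Integrable (fun z => g (x + z)) volume :=
    (hg.integrable_of_hasCompactSupport hc).comp_add_left x
  exact h1.restrict

lemma lim_zero {U : Ultrafilter ℕ} {u : ℕ → ℝ} {l : ℝ} (h : Tendsto u U (𝓝 l))
    (h0 : ∀ᶠ n in (U : Filter ℕ), u n = 0) : l = 0 :=
  tendsto_nhds_unique (h.congr' h0) tendsto_const_nhds

theorem pf_RKT (hCTX : T_CTX) (hCRL : T_CRL) (hPFA : T_PFA) (hPRJ : T_PRJ) (hWKU : T_WKU) (hDNS : T_DNS)
    (hUCP : T_UCP) (hWCH : T_WCH) : T_RKT := by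
  classical
  intro Ω σ ν r hΩ hσ hr
  obtain ⟨η, hη⟩ := hCTX Ω r hΩ hr
  obtain ⟨A, hA, hD⟩ := hDNS Ω η hΩ.op hΩ.bdd hη.sm
  have hprof : ∀ i, IsProfile σ (fun x => ⟪curl (A i) x, ν x⟫) := fun i =>
    (hPFA Ω σ ν (A i) hΩ hσ (hA i).1 (hA i).2).1
  by_contra hcon
  push Not at hcon
  have hneg : ∀ n : ℕ, ∃ (S : Set E) (h τ : Fin n → E → ℝ) (x v : E), IsCompact S ∧ S.Nonempty ∧ S ⊆ Ω ∧
      volume S = 0 ∧ (∀ y ∈ S, r ≤ infDist y (frontier Ω)) ∧ (∀ i, Harm (Ω \ S) (h i)) ∧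
      (∀ i : Fin n, Sol Ω S σ ν (fun x => ⟪curl (A i) x, ν x⟫) (h i) (gr (h i)) (τ i)) ∧ x ∈ Ω ∧
      r < infDist x S ∧ r ≤ infDist x (frontier Ω) ∧
      (connectedComponentIn {y | r < infDist y S} x ∩ (closure Ω)ᶜ).Nonempty ∧ ‖v‖ = 1 ∧
      ∀ i, ⟪gr (h i) x, v⟫ = 0 := by
    intro n
    obtain ⟨S, h, τ, h1, h2, h3, h4, h5, h6, h7, x, h8, h9, h10, h11, v, h12, h13⟩ :=
      hcon n (fun i : Fin n => fun x => ⟪curl (A i) x, ν x⟫) (fun i => hprof i)
    exact ⟨S, h, τ, x, v, h1, h2, h3, h4, h5, h6, h7, h8, h9, h10, h11, h12, h13⟩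
  choose S h τ x v hS hSne hSΩ hS0 hSr hH hSol hx hxS hxr hxc hv hv0 using hneg
  set ρ : ℝ := r / 32 with hρ
  have hρ0 : 0 < ρ := by positivity
  have hball : ∀ n, ball (x n) r ⊆ Ω := fun n => ball_sub_of_infDist hΩ.op (hx n) (hxr n)
  have hcb : ∀ n, closedBall (x n) ρ ⊆ Ω \ S n := by
    intro n y hy
    have h1 : dist y (x n) < r := lt_of_le_of_lt (mem_closedBall.1 hy) (by linarith)
    refine ⟨hball n h1, fun hyS => ?_⟩
    have h2 := infDist_le_dist_of_mem (x := x n) hyS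
    rw [dist_comm] at h2
    linarith [hxS n]
  choose P hP1 hP2 hP3 hP4 hP5 using fun n => hPRJ Ω (S n) σ ν r ρ η n (fun i => A i) (h n) (τ n) (x n) (v n)
    hΩ hσ hr hη (hS n) (hSΩ n) (hS0 n) (hSr n) (fun i => hA i) (hH n) (hSol n) hρ0 (hcb n) (hv0 n)
  obtain ⟨𝒲, hW1, hW2⟩ := hWCH Ω r hΩ.bdd hr
  choose W hWm hWb hWd using fun n => hW2 (S n) (x n) (hSne n) (hx n) (hxS n) (hxc n)
  set U : Ultrafilter ℕ := hyperfilter ℕ with hU
  -- one channel
  obtain ⟨W0, hW0, hWU⟩ : ∃ W0 ∈ 𝒲, ∀ᶠ n in (U : Filter ℕ), W n = W0 := by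
    have h1 : (⋃ w ∈ (𝒲 : Set (Set E)), {n | W n = w}) ∈ U := by
      have : (⋃ w ∈ (𝒲 : Set (Set E)), {n | W n = w}) = univ := by
        rw [eq_univ_iff_forall]
        intro n
        exact mem_iUnion₂.2 ⟨W n, hWm n, rfl⟩
      rw [this]
      exact univ_mem
    obtain ⟨w, hw, hw2⟩ := (Ultrafilter.finite_biUnion_mem_iff 𝒲.finite_toSet).1 h1
    exact ⟨w, hw, hw2⟩
  -- limits of points and directions
  obtain ⟨x0, hx0⟩ : ∃ x0 : E, Tendsto x U (𝓝 x0) := by
    have hcl : IsCompact (closure Ω) := hΩ.bdd.isCompact_closure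
    obtain ⟨a, -, ha⟩ := hcl.ultrafilter_le_nhds (U.map x) (by
      rw [le_principal_iff]
      exact Filter.mem_map.2 (Filter.univ_mem' fun n => subset_closure (hx n)))
    exact ⟨a, ha⟩
  obtain ⟨v0, hv1, hvt⟩ : ∃ v0 : E, ‖v0‖ = 1 ∧ Tendsto v U (𝓝 v0) := by
    obtain ⟨a, ha1, ha⟩ := (isCompact_sphere (0 : E) 1).ultrafilter_le_nhds (U.map v) (by
      rw [le_principal_iff]
      exact Filter.mem_map.2 (Filter.univ_mem' fun n => by simp [hv n]))
    exact ⟨a, by simpa using ha1, ha⟩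
  obtain ⟨Q, hQ, hQt⟩ := hWKU Ω P (volume (ball (0 : E) ρ)).toReal U hΩ.op.measurableSet hP1 (by
    intro n
    refine (hP2 n).trans (le_of_eq ?_)
    rw [hv n, Measure.addHaar_ball_center]
    norm_num)
  have hcurl : ∀ B : E → E, ContDiff ℝ ∞ B → HasCompactSupport B → MemLp (curl B) 2 (volume.restrict Ω) := by
    intro B hB hBc
    obtain ⟨h1, h2, -⟩ := hCRL.1 B hB
    exact memLp_of_smooth h1.continuous (hBc.of_isClosed_subset (isClosed_tsupport _) h2)
  -- (b)
  have hb : ∀ i, ∫ y in Ω, ⟪Q y, curl (fun z => η z • A i z) y⟫ = 0 := by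
    intro i
    have hB : ContDiff ℝ ∞ (fun z => η z • A i z) := hη.sm.smul (hA i).1
    have hBc : HasCompactSupport (fun z => η z • A i z) := hcs_smul (hA i).2
    refine lim_zero (hQt _ (hcurl _ hB hBc)) ?_
    have hev : ∀ᶠ n in (U : Filter ℕ), i < n := Nat.hyperfilter_le_atTop (eventually_gt_atTop i)
    filter_upwards [hev] with n hn
    exact hP3 n ⟨i, hn⟩
  have hb2 := hD Q hQ hb
  -- (a)
  have ha : ∀ φ : E → ℝ, ContDiff ℝ ∞ φ → HasCompactSupport φ →
      ∫ y in Ω, ⟪Q y, gr φ y⟫ = ∫ y in ball x0 ρ, ⟪v0, gr φ y⟫ := by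
    intro φ hφ hφc
    have hgc : Continuous (gr φ) := by
      have h1 : Continuous (fderiv ℝ φ) := hφ.continuous_fderiv (by simp)
      exact (InnerProductSpace.toDual ℝ E).symm.continuous.comp h1
    have hgs : HasCompactSupport (gr φ) := by
      have h1 : HasCompactSupport (fderiv ℝ φ) := hφc.fderiv ℝ
      exact h1.comp_left (g := fun l => (InnerProductSpace.toDual ℝ E).symm l) (map_zero _)
    have h1 := hQt (gr φ) (memLp_of_smooth hgc hgs)
    have h2 : ∀ n, ∫ y in Ω, ⟪P n y, gr φ y⟫ = ⟪v n, ∫ z in ball (0 : E) ρ, gr φ (x n + z)⟫ := by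
      intro n
      rw [hP4 n φ hφ hφc, cont_two hgc hgs]
    have h3 : Tendsto (fun n => ⟪v n, ∫ z in ball (0 : E) ρ, gr φ (x n + z)⟫) U
        (𝓝 ⟪v0, ∫ z in ball (0 : E) ρ, gr φ (x0 + z)⟫) :=
      hvt.inner (((cont_par hgc hgs ρ).tendsto x0).comp hx0)
    rw [cont_two hgc hgs]
    exact tendsto_nhds_unique (h1.congr h2) h3
  -- (c)
  have hc : ∀ B : E → E, ContDiff ℝ ∞ B → HasCompactSupport B → tsupport B ⊆ W0 →
      ∫ y in Ω, ⟪Q y, curl B y⟫ = 0 := by
    intro B hB hBc hBW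
    have hB1 : ContDiff ℝ ∞ (fun z => η z • B z) := hη.sm.smul hB
    have hB1c : HasCompactSupport (fun z => η z • B z) := hcs_smul hBc
    have hB2 : ContDiff ℝ ∞ (fun z => (1 - η z) • B z) := (contDiff_const.sub hη.sm).smul hB
    have hB2c : HasCompactSupport (fun z => (1 - η z) • B z) := hcs_smul (f := fun z => 1 - η z) hBc
    have hsum : ∀ y, curl B y = curl (fun z => η z • B z) y + curl (fun z => (1 - η z) • B z) y := by
      intro y
      have h1 := hCRL.2.1 _ _ hB1 hB2 y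
      have h2 : (fun z => η z • B z + (1 - η z) • B z) = B := by
        funext z
        rw [← add_smul]
        simp
      rw [h2] at h1
      exact h1
    obtain ⟨V, hV1, hV2, hV3⟩ := hη.one
    have hts : tsupport (fun z => (1 - η z) • B z) ⊆ Ω ∩ W0 := by
      refine subset_inter ?_ ((closure_mono ?_).trans hBW)
      · have h1 : tsupport (fun z => (1 - η z) • B z) ⊆ Vᶜ := by
          refine closure_minimal ?_ hV1.isClosed_compl
          intro y hy hyV
          exact hy (by simp [hV3 y hyV])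
        intro y hy
        by_contra hyΩ
        exact h1 hy (hV2 hyΩ)
      · intro y hy hyB
        exact hy (by simp [hyB])
    have h2 : ∫ y in Ω, ⟪Q y, curl (fun z => (1 - η z) • B z) y⟫ = 0 := by
      refine lim_zero (hQt _ (hcurl _ hB2 hB2c)) ?_
      filter_upwards [hWU] with n hn
      refine hP5 n _ hB2 hB2c fun y hy => ⟨(hts hy).1, fun hyS => ?_⟩
      have h3 := hWd n y (by rw [hn]; exact (hts hy).2)
      rw [infDist_zero_of_mem hyS] at h3
      linarith
    simp only [hsum, inner_add_right]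
    rw [integral_add (intg_inner hQ (hcurl _ hB1 hB1c)) (intg_inner hQ (hcurl _ hB2 hB2c)), hb2 B hB hBc, h2,
      add_zero]
  -- the end
  have hdist : ∀ᶠ n in (U : Filter ℕ), dist (x n) x0 < r / 16 :=
    hx0.eventually (ball_mem_nhds x0 (by positivity))
  obtain ⟨n, hn1, hn2⟩ := (hWU.and hdist).exists
  have hsub : ball x0 (2 * ρ) ⊆ ball (x n) (r / 8) := by
    intro y hy
    rw [mem_ball] at hy ⊢
    have := dist_triangle y x0 (x n)
    rw [dist_comm x0 (x n)] at this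
    linarith
  have hz : v0 = 0 := hUCP Ω W0 x0 v0 ρ Q hΩ.op hΩ.bdd (hW1 W0 hW0).1 (hW1 W0 hW0).2.1 (hW1 W0 hW0).2.2 hρ0
    (hsub.trans (hn1 ▸ hWb n)) (hsub.trans ((ball_subset_ball (by linarith)).trans (hball n))) hQ ha hc
  rw [hz, norm_zero] at hv1
  exact zero_ne_one hv1

end Pool.Agent.H38.AP
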